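import Pool.Agent.N554.HKS.Final
import Pool.Agent.N329.HKS.PP
import Pool.Agent.N339.HKS.S1
import Pool.Agent.N371.HKS.TR
import Pool.Agent.N657.HKS.FP
import Pool.Agent.N674.HKS.S2
import Pool.Agent.N787.HKS.S3
import Pool.Agent.N933.HKS.Pal

/-!
# A negative answer to the question of Hof, Knill and Simon on palindromes and class `P`

The definitions `ext`, `seg`, `Lang`, `FixedPoint`, `Primitive`, `ClassP` and the data of the
counterexample (`phi`, `u`) are in `Pool/Agent/N554/HKS/Def.lean`.

The fixed point `u` of the primitive morphism `phi` on seven letters has infinitely many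
palindromic factors. For every square `r r` in its language either `r` is the single letter `0`, or
at least three letters have an odd number of occurrences in `r`. A morphism `ψ` of class `P` with
the same language would give the square `ψ(0) ψ(0)` with `ψ(0)` a product of two palindromes, in
which at most two letters have an odd number of occurrences.
-/

set_option autoImplicit false

namespace Pool.Agent.Results.MP_56c58d_co.ClassPQuestion

open Pool.Agent.N554.HKS

/-- The statement asked for in Q1: a fixed point of a primitive morphism has infinitely many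
palindromic factors if and only if its language is the language of a fixed point of a morphism of
class `P`. -/
def HofKnillSimon : Prop :=
  ∀ (A : Type) [Finite A] (φ : A → List A) (u : ℕ → A), Primitive φ → FixedPoint φ u →
    ({s : List A | s ∈ Lang u ∧ s.reverse = s}.Infinite ↔
      ∃ (ψ : A → List A) (v : ℕ → A), ClassP ψ ∧ FixedPoint ψ v ∧ Lang v = Lang u)

lemma s1 : S1 := Pool.Agent.N339.HKS.S1_of Pool.Agent.N814.HKS.WST_proof
lemma s2 : S2 := Pool.Agent.N674.HKS.S2_of Pool.Agent.N814.HKS.WST_proof
lemma s3 : S3 := Pool.Agent.N787.HKS.S3_proof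
lemma tr : TR := Pool.Agent.N371.HKS.TR_of Pool.Agent.N935.HKS.IMG_proof
lemma fp : FP := Pool.Agent.N657.HKS.FP_of Pool.Agent.N935.HKS.IMG_proof
  Pool.Agent.N814.HKS.WST_proof
lemma pal : PAL := Pool.Agent.N933.HKS.PAL_of Pool.Agent.N935.HKS.IMG_proof
  Pool.Agent.N814.HKS.WST_proof
lemma pp : PP := Pool.Agent.N329.HKS.PP_proof

/-- No morphism of class `P`, over any alphabet, has a fixed point with the language of `u`. -/
lemma no_classP (B C : Type) (g : Fin 7 → C) (hg : Function.Injective g) (e : B → C)
    (he : Function.Injective e) (ψ : B → List B) (v : ℕ → B)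
    (hψ : ClassP ψ) (hfix : FixedPoint ψ v) : Lang (e ∘ v) ≠ Lang (g ∘ u) := by
  intro hL
  obtain ⟨hprim, p, hp, hq⟩ := hψ
  obtain ⟨x, hx⟩ := any_alphabet s1 s2 s3 tr pp B C g hg e he ψ v hprim hfix hL
  obtain ⟨q, hq1, hq2⟩ := hq x
  exact hx p q hp hq1 (by rw [hq2])

/-- The statement of Q1 is false. The morphism `phi` on seven letters is primitive, `u` is a fixed
point of `phi`, and the language of `u` contains infinitely many palindromes, but it is not the
language of a fixed point of a morphism of class `P` (over any alphabet, up to renaming letters).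
Moreover, if `ψ` is a primitive morphism with `ψ(L(u)) ⊆ L(u)`, then `ψ(0)` is not a permutation of
a product of two palindromes. -/
theorem result :
    ¬ HofKnillSimon ∧
    Primitive phi ∧ FixedPoint phi u ∧
    {s : List (Fin 7) | s ∈ Lang u ∧ s.reverse = s}.Infinite ∧
    (∀ (B C : Type) (g : Fin 7 → C) (e : B → C), Function.Injective g → Function.Injective e →
      ∀ (ψ : B → List B) (v : ℕ → B), ClassP ψ → FixedPoint ψ v →
        Lang (e ∘ v) ≠ Lang (g ∘ u)) ∧
    (∀ ψ : Fin 7 → List (Fin 7), Primitive ψ → (∀ s ∈ Lang u, ext ψ s ∈ Lang u) →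
      ∀ p q : List (Fin 7), p.reverse = p → q.reverse = q → ¬ (ψ 0).Perm (p ++ q)) := by
  refine ⟨?_, fp.1, fp.2, pal, ?_, ?_⟩
  · intro h
    obtain ⟨ψ, v, hψ, hfix, hL⟩ := (h (Fin 7) phi u fp.1 fp.2).mp pal
    exact no_classP (Fin 7) (Fin 7) id Function.injective_id id Function.injective_id ψ v hψ hfix
      (by simpa using hL)
  · intro B C g e hg he ψ v hψ hfix
    exact no_classP B C g hg e he ψ v hψ hfix
  · intro ψ hprim hpres p q hp hq
    obtain ⟨k, hk, hprim'⟩ := hprim
    apply core_pres s1 s2 s3 tr pp ψ hpres ?_ ?_ p q hp hq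
    · intro h0
      obtain ⟨k', rfl⟩ : ∃ k', k = k' + 1 := ⟨k - 1, by omega⟩
      have := hprim' 0 0
      rw [Function.iterate_succ_apply] at this
      have h1 : ext ψ [0] = [] := by simp [ext, h0]
      rw [h1, iter_nil] at this
      simp at this
    · intro h0
      have hmem := hprim' 0 6
      rw [iter_fix ψ 0 h0] at hmem
      simp at hmem

end Pool.Agent.Results.MP_56c58d_co.ClassPQuestion
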